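import Mathlib

/-- `MP_ecaebc_co`, colourings that depend in an arbitrary way on the valuations at finitely many
primes and on the residue of the cofactor: they satisfy `c (T u) = c T` for `u ≡ 1 (mod Q)`. -/
theorem Pool.Agent.Results.MP_ecaebc_co.FiniteValuationColourings.result
    (Q : ℕ) (hQ : 2 ≤ Q) {κ : Type*} [Finite κ] (c : ℕ → κ)
    (hc : ∀ T u : ℕ, 0 < T → u ≡ 1 [MOD Q] → c (T * u) = c T) :
    ∃ A B : Set ℕ, A.Infinite ∧ B.Infinite ∧ (∀ a ∈ A, 0 < a) ∧ (∀ b ∈ B, 0 < b) ∧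
      ∃ k : κ, ∀ a ∈ A, ∀ b ∈ B, c a = k ∧ c (a + b) = k ∧ c (a * b) = k := by
  obtain ⟨k, hk⟩ := Finite.exists_infinite_fiber (fun j : ℕ => c (Q ^ j))
  have hK : ((fun j : ℕ => c (Q ^ j)) ⁻¹' {k}).Infinite := Set.infinite_coe_iff.1 hk
  obtain ⟨j, hj⟩ := hK.nonempty
  have hj' : c (Q ^ j) = k := hj
  have hQ0 : 0 < Q := by omega
  refine ⟨Set.range (fun i : ℕ => Q ^ j * (1 + Q * i)),
    (fun l : ℕ => Q ^ (l - j)) '' {l | c (Q ^ l) = k ∧ 2 * j < l}, ?_, ?_, ?_, ?_, k, ?_⟩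
  · apply Set.infinite_range_of_injective
    intro a b hab
    have h1 := Nat.eq_of_mul_eq_mul_left (show 0 < Q ^ j by positivity) hab
    have h2 : Q * a = Q * b := by omega
    exact Nat.eq_of_mul_eq_mul_left hQ0 h2
  · apply Set.Infinite.image
    · intro a ha b hb hab
      have h1 := Nat.pow_right_injective hQ hab
      have h2 : 2 * j < a := ha.2
      have h3 : 2 * j < b := hb.2
      have h4 : a - j = b - j := h1
      omega
    · have : {l | c (Q ^ l) = k ∧ 2 * j < l} = ((fun j : ℕ => c (Q ^ j)) ⁻¹' {k}) \ Set.Iic (2 * j) := by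
        ext l
        simp
      rw [this]
      exact hK.sdiff (Set.finite_Iic _)
  · rintro a ⟨i, rfl⟩
    positivity
  · rintro b ⟨l, _, rfl⟩
    positivity
  · rintro a ⟨i, rfl⟩ b ⟨l, ⟨hl1, hl2⟩, rfl⟩
    refine ⟨?_, ?_, ?_⟩
    · show c (Q ^ j * (1 + Q * i)) = k
      rw [hc _ _ (by positivity) (by unfold Nat.ModEq; simp), hj']
    · have e : Q ^ j * (1 + Q * i) + Q ^ (l - j) = Q ^ j * (1 + Q * (i + Q ^ (l - 2 * j - 1))) := by
        have : Q ^ (l - j) = Q ^ j * (Q * Q ^ (l - 2 * j - 1)) := by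
          rw [← pow_succ', ← pow_add]
          congr 1
          omega
        rw [this]; ring
      show c (Q ^ j * (1 + Q * i) + Q ^ (l - j)) = k
      rw [e, hc _ _ (by positivity) (by unfold Nat.ModEq; simp), hj']
    · have e : Q ^ j * (1 + Q * i) * Q ^ (l - j) = Q ^ l * (1 + Q * i) := by
        have : Q ^ l = Q ^ j * Q ^ (l - j) := by
          rw [← pow_add]; congr 1; omega
        rw [this]; ring
      show c (Q ^ j * (1 + Q * i) * Q ^ (l - j)) = k
      rw [e, hc _ _ (by positivity) (by unfold Nat.ModEq; simp), hl1]
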