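import Pool.Agent.H638.GP.Seq

set_option autoImplicit false

/-!
Sums and products for colourings determined by the signs of finitely many generalised polynomials
and a completely multiplicative function with values in a finite group.
-/

namespace Pool.Agent.Results.MP_ecaebc_co.StructuredColourings

/-- Generalised polynomials: obtained from real constants and the variable by addition,
multiplication and the floor function. -/
inductive GenPoly : (ℕ → ℝ) → Prop
  | const (c : ℝ) : GenPoly (fun _ => c)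
  | var : GenPoly (fun n => (n : ℝ))
  | add {f g : ℕ → ℝ} : GenPoly f → GenPoly g → GenPoly (fun n => f n + g n)
  | mul {f g : ℕ → ℝ} : GenPoly f → GenPoly g → GenPoly (fun n => f n * g n)
  | floor {f : ℕ → ℝ} : GenPoly f → GenPoly (fun n => (⌊f n⌋ : ℝ))

/-- completely multiplicative on the positive integers, with values in a group -/
def CompletelyMultiplicative {G : Type} [Group G] (f : ℕ → G) : Prop :=
  ∀ a b : ℕ, 0 < a → 0 < b → f (a * b) = f a * f b

/-- The colour of `n ≥ 1` is determined by the signs (`-`, `0` or `+`) of finitely many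
generalised polynomials at `n` and by the value at `n` of a completely multiplicative function
with values in a finite group. -/
def Structured {κ : Type} (c : ℕ → κ) : Prop :=
  ∃ (s : ℕ) (g : Fin s → ℕ → ℝ) (G : Type) (_ : Group G) (_ : Finite G) (f : ℕ → G),
    (∀ i, GenPoly (g i)) ∧ CompletelyMultiplicative f ∧
    ∀ m n : ℕ, 0 < m → 0 < n → (∀ i, SignType.sign (g i m) = SignType.sign (g i n)) →
      f m = f n → c m = c n

theorem GenPoly.toEx {f : ℕ → ℝ} (h : GenPoly f) : ∃ e : H638.GP.Ex, ∀ n, e.ev n = f n := by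
  induction h with
  | const c => exact ⟨.const c, fun n => rfl⟩
  | var => exact ⟨.var, fun n => rfl⟩
  | add _ _ h1 h2 =>
    obtain ⟨a, ha⟩ := h1
    obtain ⟨b, hb⟩ := h2
    exact ⟨.add a b, fun n => by simp only [H638.GP.Ex.ev]; rw [ha, hb]⟩
  | mul _ _ h1 h2 =>
    obtain ⟨a, ha⟩ := h1
    obtain ⟨b, hb⟩ := h2
    exact ⟨.mul a b, fun n => by simp only [H638.GP.Ex.ev]; rw [ha, hb]⟩
  | floor _ h1 =>
    obtain ⟨a, ha⟩ := h1
    exact ⟨.fl a, fun n => by simp only [H638.GP.Ex.ev]; rw [ha]⟩

open Filter in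
/-- Main theorem: an infinite sequence with all products of sums in one colour class; in
particular infinite sets `A`, `B` with `(A + B) ∪ A B` monochromatic. -/
theorem result {κ : Type} (c : ℕ → κ) (hc : Structured c) (K : ℕ) :
    (∃ (x : ℕ → ℕ) (col : κ), StrictMono x ∧ (∀ n, K < x n) ∧
      ∀ F G : Finset ℕ, G.Nonempty → (∀ i ∈ F, ∀ j ∈ G, i < j) →
        c ((∏ i ∈ F, x i) * ∑ j ∈ G, x j) = col) ∧
    (∃ (A B : Set ℕ) (col : κ), A.Infinite ∧ B.Infinite ∧ (∀ a ∈ A, K < a) ∧ (∀ b ∈ B, K < b) ∧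
      ∀ a ∈ A, ∀ b ∈ B, c (a + b) = col ∧ c (a * b) = col) := by
  classical
  obtain ⟨s, g, G, _, _, f, hg, hf, hdet⟩ := hc
  choose e he using fun i => (hg i).toEx
  obtain ⟨p, hp, σ, hM, hS⟩ := H638.GP.exists_good e f hf
  have hf1 : f 1 = 1 := by
    have h := hf 1 1 one_pos one_pos
    rw [mul_one] at h
    exact (mul_eq_left.1 h.symm)
  set C : ℕ → Prop := fun n => 0 < n ∧ (∀ i, SignType.sign (g i n) = σ i) ∧ f n = 1 with hCdef
  obtain ⟨x, hx, hx0, -, hxC⟩ := H638.GP.exists_seq hp (C := C) (M := fun n => f n = 1) hf1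
    (fun a b ha hb h1 h2 => by
      show f (a * b) = 1
      rw [hf a b ha hb, h1, h2, mul_one])
    (fun l hl hfl => by
      filter_upwards [hM, hS l hl] with k hk1 hk2
      refine ⟨Nat.mul_pos hl k.pos, fun i => ?_, ?_⟩
      · rw [← he, hk2 i]
      · rw [hf l k hl k.pos, hfl, hk1, mul_one])
    hM K
  have hCc : ∀ m n, C m → C n → c m = c n := by
    intro m n hm hn
    exact hdet m n hm.1 hn.1 (fun i => (hm.2.1 i).trans (hn.2.1 i).symm)
      (hm.2.2.trans hn.2.2.symm)
  have hC0 : C (x 0) := by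
    have := hxC ∅ {0} (by simp) (by simp)
    simpa using this
  have hxK : ∀ n, K < x n := fun n => lt_of_lt_of_le hx0 (hx.monotone (Nat.zero_le n))
  have main : ∀ F G : Finset ℕ, G.Nonempty → (∀ i ∈ F, ∀ j ∈ G, i < j) →
        c ((∏ i ∈ F, x i) * ∑ j ∈ G, x j) = c (x 0) :=
    fun F G hG hFG => hCc _ _ (hxC F G hG hFG) hC0
  refine ⟨⟨x, c (x 0), hx, hxK, main⟩, ?_⟩
  have hsum : ∀ i j, i < j → c (x i + x j) = c (x 0) := by
    intro i j hij
    have := main ∅ {i, j} (by simp) (by simp)
    rwa [Finset.prod_empty, one_mul, Finset.sum_pair hij.ne] at this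
  have hprod : ∀ i j, i < j → c (x i * x j) = c (x 0) := by
    intro i j hij
    have := main {i} {j} (by simp) (by simpa using hij)
    simpa using this
  have hne : ∀ i j, i ≠ j → c (x i + x j) = c (x 0) ∧ c (x i * x j) = c (x 0) := by
    intro i j hij
    rcases lt_or_gt_of_ne hij with h | h
    · exact ⟨hsum i j h, hprod i j h⟩
    · rw [add_comm, mul_comm]; exact ⟨hsum j i h, hprod j i h⟩
  refine ⟨Set.range (fun n => x (2 * n)), Set.range (fun n => x (2 * n + 1)), c (x 0), ?_, ?_,
    ?_, ?_, ?_⟩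
  · refine Set.infinite_range_of_injective (fun a b h => ?_)
    have := hx.injective h
    omega
  · refine Set.infinite_range_of_injective (fun a b h => ?_)
    have := hx.injective h
    omega
  · rintro _ ⟨n, rfl⟩; exact hxK _
  · rintro _ ⟨n, rfl⟩; exact hxK _
  · rintro _ ⟨m, rfl⟩ _ ⟨n, rfl⟩
    exact hne _ _ (by omega)

end Pool.Agent.Results.MP_ecaebc_co.StructuredColourings
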